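import Mathlib

/-!
# The bound for the integral over all positions: numerical part
-/

set_option autoImplicit false

open MeasureTheory Set Filter
open scoped ENNReal

namespace Pool.Agent.H90.SWL.BI

/-- the numerical part -/
theorem num {n : ℕ} {κ X N T d a τ : ℝ} (hκ0 : 0 < κ) (hκ1 : κ ≤ 1) (hX : 1 ≤ X) (hN : 1 ≤ N)
    (hT : 1 ≤ T) (hd : 1 ≤ d) (hX2 : X ^ 2 ≤ 3 ^ n * (d * N * T)) (hτ : τ ≤ n)
    (ha : a = Real.exp (-τ) / N) (σ : ℝ) (hσ : σ = if 0 ≤ Real.log X + τ then κ else 1) :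
    X ^ σ * Real.exp (τ * (1 / 2 + σ)) * ((1 + a) ^ (1 / 2 : ℝ) *
      (1 + a / T ^ (1 / 2 : ℝ)) ^ (3 / 4 : ℝ)) ≤
    (Real.exp n + 1) * 3 ^ n * d ^ (3 / 8 : ℝ) *
      (2 * Real.exp n * X ^ κ * Real.exp (min κ (1 / 4) * τ)) := by
  have hX0 : 0 < X := by linarith
  have hN0 : 0 < N := by linarith
  have hT0 : 0 < T := by linarith
  have hd0 : 0 < d := by linarith
  have h3n : (1 : ℝ) ≤ 3 ^ n := one_le_pow₀ (by norm_num)
  have hn0 : (0 : ℝ) ≤ n := Nat.cast_nonneg n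
  set x : ℝ := Real.log X with hx
  have hx0 : 0 ≤ x := Real.log_nonneg hX
  have hXe : Real.exp x = X := Real.exp_log hX0
  have ha0 : 0 ≤ a := by rw [ha]; positivity
  set b : ℝ := min κ (1 / 4) with hb
  have hb0 : 0 < b := lt_min hκ0 (by norm_num)
  have hbκ : b ≤ κ := min_le_left _ _
  have hb4 : b ≤ 1 / 4 := min_le_right _ _
  have hXσ : ∀ r : ℝ, X ^ r = Real.exp (r * x) := by
    intro r
    rw [Real.rpow_def_of_pos hX0, mul_comm]
  -- first factor
  have h1 : Real.exp (τ / 2) * (1 + a) ^ (1 / 2 : ℝ) ≤ Real.exp n + 1 := by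
    have e1 : Real.exp (τ / 2) = Real.exp τ ^ (1 / 2 : ℝ) := by
      rw [← Real.exp_mul]
      congr 1
      ring
    rw [e1, ← Real.mul_rpow (Real.exp_pos _).le (by linarith)]
    have e2 : Real.exp τ * (1 + a) ≤ Real.exp n + 1 := by
      have e3 : Real.exp τ * a = 1 / N := by
        rw [ha, Real.exp_neg]
        field_simp
      have e4 : 1 / N ≤ 1 := by
        rw [div_le_one hN0]
        exact hN
      have e5 := Real.exp_le_exp.2 hτ
      calc Real.exp τ * (1 + a) = Real.exp τ + Real.exp τ * a := by ring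
        _ ≤ Real.exp n + 1 := by rw [e3]; linarith
    have e6 : (1 : ℝ) ≤ Real.exp n + 1 := by
      have := Real.exp_pos (n : ℝ)
      linarith
    calc (Real.exp τ * (1 + a)) ^ (1 / 2 : ℝ) ≤ (Real.exp n + 1) ^ (1 / 2 : ℝ) :=
          Real.rpow_le_rpow (by positivity) e2 (by norm_num)
      _ ≤ (Real.exp n + 1) ^ (1 : ℝ) := Real.rpow_le_rpow_of_exponent_le e6 (by norm_num)
      _ = _ := Real.rpow_one _
  -- second factor
  set R : ℝ := T ^ (1 / 2 : ℝ) with hR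
  have hR0 : 0 < R := by rw [hR]; positivity
  have hR2 : R ^ 2 = T := by
    rw [hR, ← Real.rpow_natCast, ← Real.rpow_mul hT0.le]
    norm_num
  set D : ℝ := d ^ (1 / 2 : ℝ) with hD
  have hD0 : 0 < D := by rw [hD]; positivity
  have hD1 : 1 ≤ D := by
    rw [hD]
    exact Real.one_le_rpow hd (by norm_num)
  have hD2 : D ^ 2 = d := by
    rw [hD, ← Real.rpow_natCast, ← Real.rpow_mul hd0.le]
    norm_num
  have hXle : X ≤ 3 ^ n * D * (N * R) := by
    refine le_of_sq_le_sq ?_ (by positivity)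
    refine hX2.trans ?_
    have e : (3 ^ n * D * (N * R)) ^ 2 = 3 ^ n * (d * N * T) * (3 ^ n * N) := by
      calc (3 ^ n * D * (N * R)) ^ 2 = 3 ^ n * 3 ^ n * (D ^ 2 * N ^ 2 * R ^ 2) := by ring
        _ = _ := by
            rw [hD2, hR2]
            ring
    rw [e]
    refine le_mul_of_one_le_right (by positivity) ?_
    exact one_le_mul_of_one_le_of_one_le h3n hN
  have h2a : a / R ≤ 3 ^ n * D * Real.exp (-(x + τ)) := by
    have e1 : a / R = Real.exp (-τ) / (N * R) := by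
      rw [ha, div_div]
    have e2 : Real.exp (-(x + τ)) = Real.exp (-τ) / X := by
      rw [neg_add, Real.exp_add, Real.exp_neg x, hXe]
      ring
    rw [e1, e2, div_le_iff₀ (by positivity)]
    have e3 : 3 ^ n * D * (Real.exp (-τ) / X) * (N * R) =
        Real.exp (-τ) * ((3 ^ n * D * (N * R)) / X) := by ring
    rw [e3]
    refine le_mul_of_one_le_right (Real.exp_pos _).le ?_
    rw [one_le_div hX0]
    exact hXle
  have h2b : 1 + a / R ≤ 3 ^ n * D * (1 + Real.exp (-(x + τ))) := by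
    have e1 : 1 ≤ 3 ^ n * D := one_le_mul_of_one_le_of_one_le h3n hD1
    rw [mul_add, mul_one]
    linarith
  have h2 : (1 + a / R) ^ (3 / 4 : ℝ) ≤
      3 ^ n * d ^ (3 / 8 : ℝ) * (1 + Real.exp (-(x + τ))) ^ (3 / 4 : ℝ) := by
    refine (Real.rpow_le_rpow (by positivity) h2b (by norm_num)).trans ?_
    rw [Real.mul_rpow (by positivity) (by positivity), Real.mul_rpow (by positivity)
      (by positivity)]
    have e1 : ((3 : ℝ) ^ n) ^ (3 / 4 : ℝ) ≤ 3 ^ n := by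
      calc ((3 : ℝ) ^ n) ^ (3 / 4 : ℝ) ≤ ((3 : ℝ) ^ n) ^ (1 : ℝ) :=
            Real.rpow_le_rpow_of_exponent_le h3n (by norm_num)
        _ = 3 ^ n := Real.rpow_one _
    have e2 : D ^ (3 / 4 : ℝ) = d ^ (3 / 8 : ℝ) := by
      rw [hD, ← Real.rpow_mul hd0.le]
      norm_num
    rw [e2]
    gcongr
  -- third factor
  have h3 : Real.exp (σ * (x + τ)) * (1 + Real.exp (-(x + τ))) ^ (3 / 4 : ℝ) ≤
      2 * Real.exp n * Real.exp (κ * x) * Real.exp (b * τ) := by
    by_cases h : 0 ≤ x + τ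
    · rw [if_pos h] at hσ
      rw [hσ]
      have e1 : (1 + Real.exp (-(x + τ))) ^ (3 / 4 : ℝ) ≤ 2 := by
        have e2 : Real.exp (-(x + τ)) ≤ 1 := Real.exp_le_one_iff.2 (by linarith)
        calc (1 + Real.exp (-(x + τ))) ^ (3 / 4 : ℝ) ≤ (2 : ℝ) ^ (3 / 4 : ℝ) :=
              Real.rpow_le_rpow (by positivity) (by linarith) (by norm_num)
          _ ≤ (2 : ℝ) ^ (1 : ℝ) := Real.rpow_le_rpow_of_exponent_le (by norm_num) (by norm_num)
          _ = 2 := Real.rpow_one _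
      have e2 : Real.exp (κ * (x + τ)) ≤ Real.exp n * Real.exp (κ * x) * Real.exp (b * τ) := by
        rw [← Real.exp_add, ← Real.exp_add]
        apply Real.exp_le_exp.2
        have e3 : (κ - b) * τ ≤ n := by
          rcases le_or_gt τ 0 with h0 | h0
          · have := mul_nonpos_of_nonneg_of_nonpos (sub_nonneg.2 hbκ) h0
            linarith
          · have := mul_le_mul_of_nonneg_right (show κ - b ≤ 1 by linarith) h0.le
            linarith
        linarith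
      calc Real.exp (κ * (x + τ)) * (1 + Real.exp (-(x + τ))) ^ (3 / 4 : ℝ)
          ≤ (Real.exp n * Real.exp (κ * x) * Real.exp (b * τ)) * 2 :=
            mul_le_mul e2 e1 (by positivity) (by positivity)
        _ = _ := by ring
    · rw [if_neg h] at hσ
      rw [hσ, one_mul]
      push Not at h
      set p : ℝ := x + τ with hp
      have e1 : (1 + Real.exp (-p)) ^ (3 / 4 : ℝ) ≤ 2 * Real.exp (-(3 / 4) * p) := by
        have e2 : 1 ≤ Real.exp (-p) := Real.one_le_exp (by linarith)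
        calc (1 + Real.exp (-p)) ^ (3 / 4 : ℝ) ≤ (2 * Real.exp (-p)) ^ (3 / 4 : ℝ) :=
              Real.rpow_le_rpow (by positivity) (by linarith) (by norm_num)
          _ = (2 : ℝ) ^ (3 / 4 : ℝ) * Real.exp (-(3 / 4) * p) := by
              rw [Real.mul_rpow (by norm_num) (Real.exp_pos _).le, ← Real.exp_mul]
              congr 2
              ring
          _ ≤ 2 * Real.exp (-(3 / 4) * p) := by
              have e3 : (2 : ℝ) ^ (3 / 4 : ℝ) ≤ 2 := by
                calc (2 : ℝ) ^ (3 / 4 : ℝ) ≤ (2 : ℝ) ^ (1 : ℝ) :=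
                      Real.rpow_le_rpow_of_exponent_le (by norm_num) (by norm_num)
                  _ = 2 := Real.rpow_one _
              gcongr
      calc Real.exp p * (1 + Real.exp (-p)) ^ (3 / 4 : ℝ)
          ≤ Real.exp p * (2 * Real.exp (-(3 / 4) * p)) :=
            mul_le_mul_of_nonneg_left e1 (Real.exp_pos _).le
        _ = 2 * Real.exp (p / 4) := by
            have : Real.exp p * Real.exp (-(3 / 4) * p) = Real.exp (p / 4) := by
              rw [← Real.exp_add]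
              congr 1
              ring
            linear_combination 2 * this
        _ ≤ 2 * (Real.exp n * Real.exp (κ * x) * Real.exp (b * τ)) := by
            refine mul_le_mul_of_nonneg_left ?_ (by norm_num)
            rw [← Real.exp_add, ← Real.exp_add]
            apply Real.exp_le_exp.2
            have e4 : p / 4 ≤ b * p := by
              have := mul_le_mul_of_nonpos_right hb4 h.le
              linarith
            have e5 : b * x ≤ κ * x := mul_le_mul_of_nonneg_right hbκ hx0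
            have e6 : b * p = b * x + b * τ := by rw [hp]; ring
            linarith
        _ = _ := by ring
  have hfin : X ^ σ * Real.exp (τ * (1 / 2 + σ)) =
      Real.exp (σ * (x + τ)) * Real.exp (τ / 2) := by
    rw [hXσ, ← Real.exp_add, ← Real.exp_add]
    congr 1
    ring
  rw [hfin, hXσ]
  calc Real.exp (σ * (x + τ)) * Real.exp (τ / 2) * ((1 + a) ^ (1 / 2 : ℝ) *
        (1 + a / R) ^ (3 / 4 : ℝ))
      ≤ Real.exp (σ * (x + τ)) * Real.exp (τ / 2) * ((1 + a) ^ (1 / 2 : ℝ) *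
        (3 ^ n * d ^ (3 / 8 : ℝ) * (1 + Real.exp (-(x + τ))) ^ (3 / 4 : ℝ))) := by gcongr
    _ = (Real.exp (τ / 2) * (1 + a) ^ (1 / 2 : ℝ)) * (3 ^ n * d ^ (3 / 8 : ℝ)) *
        (Real.exp (σ * (x + τ)) * (1 + Real.exp (-(x + τ))) ^ (3 / 4 : ℝ)) := by ring
    _ ≤ (Real.exp n + 1) * (3 ^ n * d ^ (3 / 8 : ℝ)) *
        (2 * Real.exp n * Real.exp (κ * x) * Real.exp (b * τ)) := by
        gcongr
    _ = _ := by ring

/-- comparison of the two conductors -/
theorem cmp {a T T' Q : ℝ} (ha : 0 ≤ a) (hT : 1 ≤ T) (hT' : 1 ≤ T') (hQ : 1 ≤ Q)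
    (h1 : T' ≤ T * Q) (h2 : T ≤ T' * Q) :
    T' ^ (27 / 164 : ℝ) * (1 + a / T' ^ (1 / 2 : ℝ)) ^ (3 / 4 : ℝ) ≤
      Q ^ 2 * (T ^ (27 / 164 : ℝ) * (1 + a / T ^ (1 / 2 : ℝ)) ^ (3 / 4 : ℝ)) := by
  have hT0 : 0 < T := by linarith
  have hT0' : 0 < T' := by linarith
  have hQ0 : 0 < Q := by linarith
  have hQp : ∀ r : ℝ, r ≤ 1 → Q ^ r ≤ Q := by
    intro r hr
    calc Q ^ r ≤ Q ^ (1 : ℝ) := Real.rpow_le_rpow_of_exponent_le hQ hr
      _ = Q := Real.rpow_one _
  have e1 : T' ^ (27 / 164 : ℝ) ≤ T ^ (27 / 164 : ℝ) * Q := by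
    calc T' ^ (27 / 164 : ℝ) ≤ (T * Q) ^ (27 / 164 : ℝ) :=
          Real.rpow_le_rpow hT0'.le h1 (by norm_num)
      _ = T ^ (27 / 164 : ℝ) * Q ^ (27 / 164 : ℝ) := Real.mul_rpow hT0.le hQ0.le
      _ ≤ T ^ (27 / 164 : ℝ) * Q :=
          mul_le_mul_of_nonneg_left (hQp _ (by norm_num)) (by positivity)
  have e2 : a / T' ^ (1 / 2 : ℝ) ≤ Q * (a / T ^ (1 / 2 : ℝ)) := by
    have e3 : T ^ (1 / 2 : ℝ) ≤ T' ^ (1 / 2 : ℝ) * Q := by
      calc T ^ (1 / 2 : ℝ) ≤ (T' * Q) ^ (1 / 2 : ℝ) :=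
            Real.rpow_le_rpow hT0.le h2 (by norm_num)
        _ = T' ^ (1 / 2 : ℝ) * Q ^ (1 / 2 : ℝ) := Real.mul_rpow hT0'.le hQ0.le
        _ ≤ T' ^ (1 / 2 : ℝ) * Q :=
            mul_le_mul_of_nonneg_left (hQp _ (by norm_num)) (by positivity)
    have e4 : 0 < T ^ (1 / 2 : ℝ) := by positivity
    have e5 : 0 < T' ^ (1 / 2 : ℝ) := by positivity
    rw [div_le_iff₀ e5]
    have e6 : Q * (a / T ^ (1 / 2 : ℝ)) * T' ^ (1 / 2 : ℝ) =
        a * ((T' ^ (1 / 2 : ℝ) * Q) / T ^ (1 / 2 : ℝ)) := by ring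
    rw [e6]
    refine le_mul_of_one_le_right ha ?_
    rw [one_le_div e4]
    exact e3
  have e7 : (1 + a / T' ^ (1 / 2 : ℝ)) ^ (3 / 4 : ℝ) ≤
      Q * (1 + a / T ^ (1 / 2 : ℝ)) ^ (3 / 4 : ℝ) := by
    have e8 : 1 + a / T' ^ (1 / 2 : ℝ) ≤ Q * (1 + a / T ^ (1 / 2 : ℝ)) := by linarith
    calc (1 + a / T' ^ (1 / 2 : ℝ)) ^ (3 / 4 : ℝ)
        ≤ (Q * (1 + a / T ^ (1 / 2 : ℝ))) ^ (3 / 4 : ℝ) :=
          Real.rpow_le_rpow (by positivity) e8 (by norm_num)
      _ = Q ^ (3 / 4 : ℝ) * (1 + a / T ^ (1 / 2 : ℝ)) ^ (3 / 4 : ℝ) :=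
          Real.mul_rpow hQ0.le (by positivity)
      _ ≤ Q * (1 + a / T ^ (1 / 2 : ℝ)) ^ (3 / 4 : ℝ) :=
          mul_le_mul_of_nonneg_right (hQp _ (by norm_num)) (by positivity)
  calc T' ^ (27 / 164 : ℝ) * (1 + a / T' ^ (1 / 2 : ℝ)) ^ (3 / 4 : ℝ)
      ≤ (T ^ (27 / 164 : ℝ) * Q) * (Q * (1 + a / T ^ (1 / 2 : ℝ)) ^ (3 / 4 : ℝ)) :=
        mul_le_mul e1 e7 (by positivity) (by positivity)
    _ = _ := by ring

theorem lint_exp {A b : ℝ} (hA : 0 ≤ A) (hb : 0 < b) (N : ℝ) :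
    ∫⁻ τ in Iic N, ENNReal.ofReal (A * Real.exp (b * τ)) =
      ENNReal.ofReal (A * (Real.exp (b * N) / b)) := by
  rw [← ofReal_integral_eq_lintegral_ofReal]
  · rw [integral_const_mul, integral_exp_mul_Iic hb]
  · exact (integrableOn_exp_mul_Iic hb N).const_mul A
  · filter_upwards with τ
    positivity

end Pool.Agent.H90.SWL.BI
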