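import Pool.Agent.H31.SW.TargetsA
import Pool.Agent.H29.DW.BSb
import Pool.Agent.H90.SWL.BIn

/-!
# The bound for the integral over all positions: test functions
-/

set_option autoImplicit false

open NumberField NumberField.InfinitePlace MeasureTheory Set Filter Complex
open scoped nonZeroDivisors ENNReal

namespace Pool.Agent.H90.SWL.BI

open Pool.Agent.H25.HK Pool.Agent.H23.LB Pool.Agent.H23.LC
open Pool.Agent.H29.DW (dg Rl lf wv Pos Wg cpar Ci om zs rv Wt)
open Pool.Agent.H31.SW

theorem bz_zero {x : ℂ} (h : 1 / 10000 ≤ ‖x‖) : bz x = 0 := by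
  refine bz.zero_of_le_dist ?_
  rw [dist_zero_right]
  exact h

theorem pz_Pf : Pf pz := by
  refine ⟨fun r n => ?_, fun r x hx => ?_⟩
  · show ContDiff ℝ n (fun x : ℂ => ((bz x : ℝ) : ℂ))
    exact Complex.ofRealCLM.contDiff.comp bz.contDiff
  · show ((bz x : ℝ) : ℂ) = 0
    rw [bz_zero hx.le, Complex.ofReal_zero]

theorem ps_Pf (σ : ℝ) : Pf (ps σ pz) := by
  refine ⟨fun r n => ?_, fun r x hx => ?_⟩
  · rw [contDiff_iff_contDiffAt]
    intro x
    by_cases hx : ‖x‖ < 1 / 2
    · have h1 : (1 : ℂ) + x ≠ 0 := by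
        intro h0
        have : x = -1 := by linear_combination h0
        rw [this, norm_neg, norm_one] at hx
        norm_num at hx
      unfold ps
      refine ContDiffAt.mul ((pz_Pf.1 r n).contDiffAt) ?_
      refine Complex.ofRealCLM.contDiff.contDiffAt.comp x ?_
      refine ContDiffAt.rpow_const_of_ne ?_ (norm_ne_zero_iff.mpr h1)
      exact ContDiffAt.norm ℝ (contDiffAt_const.add contDiffAt_id) h1
    · have h2 : ps σ pz r =ᶠ[nhds x] fun _ => (0 : ℂ) := by
        have h3 : ∀ᶠ y in nhds x, 1 / 10000 < ‖y‖ := by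
          refine (isOpen_lt continuous_const continuous_norm).mem_nhds ?_
          show 1 / 10000 < ‖x‖
          push Not at hx
          linarith
        filter_upwards [h3] with y hy
        unfold ps
        rw [pz_Pf.2 r y hy, zero_mul]
      exact contDiffAt_const.congr_of_eventuallyEq h2
  · unfold ps
    rw [pz_Pf.2 r x hx, zero_mul]

section

variable {K : Type} [Field K] [NumberField K]

theorem one_le_PP {R : InfinitePlace K → ℝ} (h : ∀ v, 1 ≤ R v) : 1 ≤ PP R := by
  unfold PP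
  exact Finset.prod_induction _ (fun x : ℝ => 1 ≤ x)
    (fun a b ha hb => one_le_mul_of_one_le_of_one_le ha hb) le_rfl fun v _ => one_le_pow₀ (h v)

theorem PP_le {n : ℕ} (hn : Module.finrank ℚ K = n) (c : InfinitePlace K → ℂ) (w : ℝ) :
    PP (fun v => 1 + ‖c v + (v.mult : ℂ) * w‖) ≤
      PP (fun v => 1 + ‖c v‖) * (1 + 2 * |w|) ^ n := by
  have h1 : (1 + 2 * |w|) ^ n = ∏ v : InfinitePlace K, (1 + 2 * |w|) ^ v.mult := by
    rw [Finset.prod_pow_eq_pow_sum]
    congr 1
    rw [← hn]
    exact (InfinitePlace.sum_mult_eq).symm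
  unfold PP
  rw [h1, ← Finset.prod_mul_distrib]
  refine Finset.prod_le_prod (fun v _ => by positivity) fun v _ => ?_
  rw [← mul_pow]
  refine pow_le_pow_left₀ (by positivity) ?_ _
  have h2 : ‖(v.mult : ℂ) * w‖ ≤ 2 * |w| := by
    rw [norm_mul, Complex.norm_natCast, Complex.norm_real, Real.norm_eq_abs]
    have h3 : (v.mult : ℝ) ≤ 2 := by exact_mod_cast (Pool.Agent.H29.DW.mult_pos' v).2
    exact mul_le_mul_of_nonneg_right h3 (abs_nonneg _)
  have h4 := norm_add_le (c v) ((v.mult : ℂ) * w)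
  have h5 : 0 ≤ ‖c v‖ * (2 * |w|) := by positivity
  nlinarith

end

end Pool.Agent.H90.SWL.BI
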