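import Pool.Agent.H90.SWL.BIa

/-!
# The bound for the integral over all positions
-/

set_option autoImplicit false

open NumberField NumberField.InfinitePlace NumberField.Units
  NumberField.Units.dirichletUnitTheorem MeasureTheory Set Filter Complex
open scoped nonZeroDivisors ENNReal

namespace Pool.Agent.H90.SWL

open Pool.Agent.H25.HK Pool.Agent.H23.LB Pool.Agent.H23.LC
open Pool.Agent.H28.RC (Rep ft idl)
open Pool.Agent.H29.DW (dg Rl lf wv Pos Wg cpar Ci om zs rv Wt)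
open Pool.Agent.H31.SW
open Pool.Agent.H90.SWL.BI

section

variable {K : Type} [Field K] [NumberField K]

open scoped Classical in
/-- the integral of a function of the position in the norm direction -/
private theorem lint_prod {n : ℕ} (hn : Module.finrank ℚ K = n) (hFD : T_FD) (g : ℝ → ℝ≥0∞)
    (hg : Measurable g) :
    ∫⁻ u in Fd K ×ˢ (univ : Set ℝ) ×ˢ An K, g u.2.1 ≤
      ENNReal.ofReal (regulator K) *
        ((∫⁻ τ, g τ) * ENNReal.ofReal ((2 * Real.pi) ^ n)) := by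
  have hm : Measurable (fun u : logSpace K × ℝ × (InfinitePlace K → ℝ) => g u.2.1) :=
    hg.comp (measurable_fst.comp measurable_snd)
  rw [Measure.volume_eq_prod, ← Measure.prod_restrict, Measure.volume_eq_prod,
    ← Measure.prod_restrict, lintegral_prod _ hm.aemeasurable]
  have h2 : ∫⁻ y : ℝ × (InfinitePlace K → ℝ), g y.1
      ∂((volume.restrict (univ : Set ℝ)).prod (volume.restrict (An K))) =
      (∫⁻ τ, g τ) * volume (An K) := by
    have hm2 : Measurable (fun y : ℝ × (InfinitePlace K → ℝ) => g y.1) := hg.comp measurable_fst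
    rw [lintegral_prod _ hm2.aemeasurable, Measure.restrict_univ]
    simp only [lintegral_const, Measure.restrict_apply MeasurableSet.univ, univ_inter]
    rw [lintegral_mul_const _ hg]
  simp only [h2, lintegral_const, Measure.restrict_apply MeasurableSet.univ, univ_inter]
  rw [mul_comm]
  refine mul_le_mul' ?_ (mul_le_mul' le_rfl (Pool.Agent.H29.DW.An_vol hn))
  have h1 := Pool.Agent.H94.GLA.vol_Fd (K := K)
  rw [← h1]
  exact le_of_eq (ENNReal.ofReal_toReal (hFD K).2.2.2.1.ne).symm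

private theorem DD_yM (hYC : T_YC) (M : FI K) (hM : M ≠ 0) (τ : ℝ) (z : logSpace K) :
    DD M (yM K M τ z) = Real.exp (-τ) := by
  have h0 : (0 : ℝ) < (FractionalIdeal.absNorm M : ℝ) := by
    have h1 : FractionalIdeal.absNorm M ≠ 0 := by
      rw [Ne, FractionalIdeal.absNorm_eq_zero_iff]
      exact hM
    have h2 : 0 ≤ FractionalIdeal.absNorm M := FractionalIdeal.absNorm_nonneg M
    exact_mod_cast lt_of_le_of_ne h2 h1.symm
  unfold DD yM
  rw [(hYC K).1]
  have h1 : -(2 * (τ - Real.log (FractionalIdeal.absNorm M : ℝ))) / 2 =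
      -τ + Real.log (FractionalIdeal.absNorm M : ℝ) := by ring
  rw [h1, Real.exp_add, Real.exp_log h0]
  field_simp

end

open scoped Classical in
/-- (BI) the bound for the integral over all positions. -/
theorem pf_BI (hRS : W_RS) (hIN : W_IN) (hMS : W_MS) (hRR : T_RR) (hYC : T_YC) (hFD : T_FD) :
    W_BI := by
  intro n hn0 κ hκ0 hκ1
  obtain ⟨C1, hC1, hRS1⟩ := hRS n (ps κ pz) hn0 (ps_Pf κ)
  obtain ⟨C2, hC2, hRS2⟩ := hRS n (ps 1 pz) hn0 (ps_Pf 1)
  obtain ⟨I0, hI0⟩ : ∃ I0 : ℝ≥0∞, I0 = ∫⁻ w : ℝ, ENNReal.ofReal (Real.exp (-w ^ 2 / 4) *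
    (4 + 2 * |w|) ^ (2 * n)) := ⟨_, rfl⟩
  have hI0fin : I0 < ⊤ := by
    rw [hI0]
    exact Pool.Agent.H29.DW.gauss_poly (2 * n)
  obtain ⟨b, hb⟩ : ∃ b : ℝ, b = min κ (1 / 4) := ⟨_, rfl⟩
  have hb0 : 0 < b := by
    rw [hb]
    exact lt_min hκ0 (by norm_num)
  refine ⟨(C1 + C2) * I0.toReal * ((Real.exp n + 1) * 3 ^ n * (2 * Real.exp n)) *
    (Real.exp (b * n) / b) * (2 * Real.pi) ^ n, by positivity, ?_⟩
  intro K _ _ hn ι _ M hM j c X B E v cc s hj hc hX hX2 hB hv hE hper hbd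
  have hX0 : 0 < X := by linarith
  have hNj : 1 ≤ Nf K j := by
    unfold Nf
    have h : Ideal.absNorm j ≠ 0 := fun h => hj (Ideal.absNorm_eq_zero_iff.1 h)
    exact_mod_cast Nat.one_le_iff_ne_zero.2 h
  have hNj0 : 0 < Nf K j := by linarith
  have hd : 1 ≤ dK K := by
    unfold dK
    have h : (1 : ℤ) ≤ |discr K| := Int.one_le_abs (discr_ne_zero K)
    have h2 : ((1 : ℤ) : ℝ) ≤ ((|discr K| : ℤ) : ℝ) := by exact_mod_cast h
    simpa using h2
  have hd0 : 0 < dK K := by linarith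
  have hreg : 0 < regulator K := regulator_pos K
  obtain ⟨T, hT⟩ : ∃ T : ℝ, T = PP (fun v => 1 + ‖c v‖) := ⟨_, rfl⟩
  have hT1 : 1 ≤ T := by
    rw [hT]
    exact one_le_PP fun v => by have := norm_nonneg (c v); linarith
  have hT0 : 0 < T := by linarith
  rw [← hT] at hX2 ⊢
  obtain ⟨W, hW⟩ : ∃ W : ℝ, W = B * ((C1 + C2) * E * Nf K j * dK K ^ (5 / 4 : ℝ) *
    T ^ (27 / 164 : ℝ)) * ((Real.exp n + 1) * 3 ^ n * dK K ^ (3 / 8 : ℝ) *
      (2 * Real.exp n * X ^ κ)) * I0.toReal := ⟨_, rfl⟩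
  have hW0 : 0 ≤ W := by
    rw [hW]
    positivity
  -- the pointwise bound
  have hpt : ∀ (i : ι) (u : logSpace K × ℝ × (InfinitePlace K → ℝ)),
      ENNReal.ofReal ‖∑' x : {x : K // x ∈ M i ∧ x ≠ 0}, cc i x *
        v (Ideal.absNorm (idl K (M i) x)) *
          pF (fun v => GG (pz (rv v)) (c v)) (yM K (M i) u.2.1 (zs s u.1)) (om s u.2.2) x‖ ≤
      (Iic (n : ℝ)).indicator (fun τ => ENNReal.ofReal (W * Real.exp (b * τ))) u.2.1 := by
    rintro i ⟨z, τ, θ⟩
    show ENNReal.ofReal ‖∑' x : {x : K // x ∈ M i ∧ x ≠ 0}, cc i x *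
        v (Ideal.absNorm (idl K (M i) x)) *
          pF (fun v => GG (pz (rv v)) (c v)) (yM K (M i) τ (zs s z)) (om s θ) x‖ ≤
      (Iic (n : ℝ)).indicator (fun τ => ENNReal.ofReal (W * Real.exp (b * τ))) τ
    by_cases hτ : τ ≤ n
    · rw [indicator_of_mem (show τ ∈ Iic (n : ℝ) from hτ)]
      obtain ⟨σ, hσ⟩ : ∃ σ : ℝ, σ = if 0 ≤ Real.log X + τ then κ else 1 := ⟨_, rfl⟩
      have hσ' : σ = κ ∨ σ = 1 := by
        rw [hσ]
        split_ifs
        · exact Or.inl rfl
        · exact Or.inr rfl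
      have hIN' := hIN K (M i) c pz (cc i) κ X B v (hM.1 i) pz_Pf ⟨E, hbd i⟩ hκ0 hκ1 hX0 hB hv
        (zs s z) τ (om s θ) σ (Pool.Agent.H29.DW.Pos_om s θ) hσ'
      refine hIN'.trans ?_
      obtain ⟨a, ha⟩ : ∃ a : ℝ, a = Real.exp (-τ) / Nf K j := ⟨_, rfl⟩
      have ha0 : 0 ≤ a := by rw [ha]; positivity
      obtain ⟨F, hF⟩ : ∃ F : ℝ, F = (C1 + C2) * E * Nf K j * dK K ^ (5 / 4 : ℝ) *
        (1 + a) ^ (1 / 2 : ℝ) * (T ^ (27 / 164 : ℝ) *
          (1 + a / T ^ (1 / 2 : ℝ)) ^ (3 / 4 : ℝ)) := ⟨_, rfl⟩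
      have hF0 : 0 ≤ F := by rw [hF]; positivity
      have hin : ∀ w : ℝ, ‖∑' x : {x : K // x ∈ M i}, cc i x *
          pF (fun v => GG (ps σ pz (rv v)) (c v + (v.mult : ℂ) * w))
            (yM K (M i) τ (zs s z)) (om s θ) x‖ ≤ F * (4 + 2 * |w|) ^ (2 * n) := by
        intro w
        obtain ⟨T', hT'⟩ : ∃ T' : ℝ, T' = PP (fun v => 1 + ‖c v + (v.mult : ℂ) * w‖) := ⟨_, rfl⟩
        have hT1' : 1 ≤ T' := by
          rw [hT']
          exact one_le_PP fun v => by have := norm_nonneg (c v + (v.mult : ℂ) * w); linarith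
        have hreal : ∀ v : InfinitePlace K, Rl (rv v) (c v + (v.mult : ℂ) * w) := by
          intro v hr
          have := hc v hr
          simp [this]
        have h1 : ‖∑' x : {x : K // x ∈ M i}, cc i x *
          pF (fun v => GG (ps σ pz (rv v)) (c v + (v.mult : ℂ) * w))
            (yM K (M i) τ (zs s z)) (om s θ) x‖ ≤ (C1 + C2) * E * Nf K j *
            dK K ^ (5 / 4 : ℝ) * (1 + a) ^ (1 / 2 : ℝ) * T' ^ (27 / 164 : ℝ) *
            (1 + a / T' ^ (1 / 2 : ℝ)) ^ (3 / 4 : ℝ) := by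
          rcases hσ' with h | h
          · have h2 := hRS1 K hn j (M i) (cc i) (yM K (M i) τ (zs s z)) (om s θ)
              (fun v => c v + (v.mult : ℂ) * w) E hj (hM.1 i) (Pool.Agent.H29.DW.Pos_om s θ)
              hreal (hper i) (hbd i)
            rw [DD_yM hYC (M i) (hM.1 i), ← hT', ← ha] at h2
            rw [h]
            refine h2.trans ?_
            gcongr
            linarith
          · have h2 := hRS2 K hn j (M i) (cc i) (yM K (M i) τ (zs s z)) (om s θ)
              (fun v => c v + (v.mult : ℂ) * w) E hj (hM.1 i) (Pool.Agent.H29.DW.Pos_om s θ)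
              hreal (hper i) (hbd i)
            rw [DD_yM hYC (M i) (hM.1 i), ← hT', ← ha] at h2
            rw [h]
            refine h2.trans ?_
            gcongr
            linarith
        have hq : 1 ≤ (1 + 2 * |w|) ^ n := one_le_pow₀ (by have := abs_nonneg w; linarith)
        have h3 := PP_le hn c w
        have h4 := PP_le hn (fun v => c v + (v.mult : ℂ) * w) (-w)
        have h5 : (fun v : InfinitePlace K => 1 + ‖c v + (v.mult : ℂ) * w +
            (v.mult : ℂ) * ((-w : ℝ) : ℂ)‖) = fun v => 1 + ‖c v‖ := by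
          funext v
          congr 2
          push_cast
          ring
        rw [h5, abs_neg, ← hT', ← hT] at h4
        rw [← hT', ← hT] at h3
        have h6 := cmp ha0 hT1 hT1' hq h3 h4
        refine h1.trans ?_
        calc (C1 + C2) * E * Nf K j * dK K ^ (5 / 4 : ℝ) * (1 + a) ^ (1 / 2 : ℝ) *
              T' ^ (27 / 164 : ℝ) * (1 + a / T' ^ (1 / 2 : ℝ)) ^ (3 / 4 : ℝ)
            = (C1 + C2) * E * Nf K j * dK K ^ (5 / 4 : ℝ) * (1 + a) ^ (1 / 2 : ℝ) *
              (T' ^ (27 / 164 : ℝ) * (1 + a / T' ^ (1 / 2 : ℝ)) ^ (3 / 4 : ℝ)) := by ring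
          _ ≤ (C1 + C2) * E * Nf K j * dK K ^ (5 / 4 : ℝ) * (1 + a) ^ (1 / 2 : ℝ) *
              (((1 + 2 * |w|) ^ n) ^ 2 * (T ^ (27 / 164 : ℝ) *
                (1 + a / T ^ (1 / 2 : ℝ)) ^ (3 / 4 : ℝ))) :=
              mul_le_mul_of_nonneg_left h6 (by positivity)
          _ = F * (1 + 2 * |w|) ^ (2 * n) := by
              rw [hF, ← pow_mul, mul_comm n 2]
              ring
          _ ≤ F * (4 + 2 * |w|) ^ (2 * n) := by
              refine mul_le_mul_of_nonneg_left ?_ hF0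
              exact pow_le_pow_left₀ (by positivity) (by linarith) _
      have hint : ∫⁻ w : ℝ, ENNReal.ofReal (Real.exp (-w ^ 2 / 4) *
          ‖∑' x : {x : K // x ∈ M i}, cc i x *
          pF (fun v => GG (ps σ pz (rv v)) (c v + (v.mult : ℂ) * w))
            (yM K (M i) τ (zs s z)) (om s θ) x‖) ≤ ENNReal.ofReal F * I0 := by
        rw [hI0, ← lintegral_const_mul' _ _ ENNReal.ofReal_ne_top]
        refine lintegral_mono fun w => ?_
        rw [← ENNReal.ofReal_mul hF0]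
        refine ENNReal.ofReal_le_ofReal ?_
        calc Real.exp (-w ^ 2 / 4) * _ ≤ Real.exp (-w ^ 2 / 4) * (F * (4 + 2 * |w|) ^ (2 * n)) :=
              mul_le_mul_of_nonneg_left (hin w) (Real.exp_pos _).le
          _ = _ := by ring
      refine (mul_le_mul' le_rfl hint).trans ?_
      rw [← ENNReal.ofReal_toReal hI0fin.ne, ← ENNReal.ofReal_mul hF0,
        ← ENNReal.ofReal_mul (by positivity)]
      refine ENNReal.ofReal_le_ofReal ?_
      have hnum := num (n := n) (κ := κ) (X := X) (N := Nf K j) (T := T) (d := dK K) (a := a)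
        (τ := τ) hκ0 hκ1 hX hNj hT1 hd hX2 hτ ha σ hσ
      rw [← hb] at hnum
      calc B * X ^ σ * Real.exp (τ * (1 / 2 + σ)) * (F * I0.toReal)
          = (B * ((C1 + C2) * E * Nf K j * dK K ^ (5 / 4 : ℝ) * T ^ (27 / 164 : ℝ)) *
            I0.toReal) * (X ^ σ * Real.exp (τ * (1 / 2 + σ)) * ((1 + a) ^ (1 / 2 : ℝ) *
              (1 + a / T ^ (1 / 2 : ℝ)) ^ (3 / 4 : ℝ))) := by
            rw [hF]
            ring
        _ ≤ (B * ((C1 + C2) * E * Nf K j * dK K ^ (5 / 4 : ℝ) * T ^ (27 / 164 : ℝ)) *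
            I0.toReal) * ((Real.exp n + 1) * 3 ^ n * dK K ^ (3 / 8 : ℝ) *
              (2 * Real.exp n * X ^ κ * Real.exp (b * τ))) :=
            mul_le_mul_of_nonneg_left hnum (by positivity)
        _ = W * Real.exp (b * τ) := by
            rw [hW]
            ring
    · have h1 := (hMS K (M i) c pz (cc i) s (hM.1 i) pz_Pf ⟨E, hbd i⟩).2
      have h2 : ∀ x : {x : K // x ∈ M i ∧ x ≠ 0}, cc i x *
          v (Ideal.absNorm (idl K (M i) x)) *
            pF (fun v => GG (pz (rv v)) (c v)) (yM K (M i) τ (zs s z)) (om s θ) x = 0 := by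
        intro x
        have h3 : pF (fun v => GG (pz (rv v)) (c v)) (yM K (M i) τ (zs s z)) (om s θ) x.1 = 0 := by
          by_contra h4
          have h5 := (h1 (zs s z) τ θ x.1 x.2.1 h4).2
          rw [hn] at h5
          exact hτ h5
        rw [h3, mul_zero]
      simp only [h2, tsum_zero, norm_zero, ENNReal.ofReal_zero]
      exact zero_le
  -- the integral
  have hgm : Measurable ((Iic (n : ℝ)).indicator
      (fun τ => ENNReal.ofReal (W * Real.exp (b * τ)))) := by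
    refine Measurable.indicator ?_ measurableSet_Iic
    fun_prop
  have hone : ∀ i : ι, ∫⁻ u in Fd K ×ˢ (univ : Set ℝ) ×ˢ An K,
      ENNReal.ofReal ‖∑' x : {x : K // x ∈ M i ∧ x ≠ 0}, cc i x *
        v (Ideal.absNorm (idl K (M i) x)) *
          pF (fun v => GG (pz (rv v)) (c v)) (yM K (M i) u.2.1 (zs s u.1)) (om s u.2.2) x‖ ≤
      ENNReal.ofReal (regulator K * ((W * (Real.exp (b * n) / b)) * (2 * Real.pi) ^ n)) := by
    intro i
    refine (lintegral_mono fun u => hpt i u).trans ?_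
    refine (lint_prod hn hFD _ hgm).trans (le_of_eq ?_)
    rw [lintegral_indicator measurableSet_Iic, lint_exp hW0 hb0, ← ENNReal.ofReal_mul (by positivity),
      ← ENNReal.ofReal_mul hreg.le]
  refine (Finset.sum_le_sum fun i _ => hone i).trans ?_
  rw [Finset.sum_const, nsmul_eq_mul, Finset.card_univ, (hRR K ι M hM).2.2,
    ← ENNReal.ofReal_natCast, ← ENNReal.ofReal_mul (Nat.cast_nonneg _)]
  refine ENNReal.ofReal_le_ofReal ?_
  have hXκ : X ^ κ ≤ X ^ (2 * κ) := Real.rpow_le_rpow_of_exponent_le hX (by linarith)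
  have hdd : dK K ^ (13 / 8 : ℝ) = dK K ^ (5 / 4 : ℝ) * dK K ^ (3 / 8 : ℝ) := by
    rw [← Real.rpow_add hd0]
    norm_num
  rw [hdd, hW]
  calc (classNumber K : ℝ) * (regulator K * ((B * ((C1 + C2) * E * Nf K j *
        dK K ^ (5 / 4 : ℝ) * T ^ (27 / 164 : ℝ)) * ((Real.exp n + 1) * 3 ^ n *
          dK K ^ (3 / 8 : ℝ) * (2 * Real.exp n * X ^ κ)) * I0.toReal *
            (Real.exp (b * n) / b)) * (2 * Real.pi) ^ n))
      = ((classNumber K : ℝ) * (regulator K * ((B * ((C1 + C2) * E * Nf K j *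
        dK K ^ (5 / 4 : ℝ) * T ^ (27 / 164 : ℝ)) * ((Real.exp n + 1) * 3 ^ n *
          dK K ^ (3 / 8 : ℝ) * (2 * Real.exp n)) * I0.toReal *
            (Real.exp (b * n) / b)) * (2 * Real.pi) ^ n))) * X ^ κ := by ring
    _ ≤ ((classNumber K : ℝ) * (regulator K * ((B * ((C1 + C2) * E * Nf K j *
        dK K ^ (5 / 4 : ℝ) * T ^ (27 / 164 : ℝ)) * ((Real.exp n + 1) * 3 ^ n *
          dK K ^ (3 / 8 : ℝ) * (2 * Real.exp n)) * I0.toReal *
            (Real.exp (b * n) / b)) * (2 * Real.pi) ^ n))) * X ^ (2 * κ) := by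
        refine mul_le_mul_of_nonneg_left hXκ ?_
        have : 0 ≤ (C1 + C2) * E := by positivity
        positivity
    _ = _ := by ring

end Pool.Agent.H90.SWL
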